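import Pool.Agent.F5H.StmtsA

/-!
MP_f5cbfa_nt, squad F5H, row A_ONE (helper24): one form.
-/

set_option autoImplicit false

open MeasureTheory Filter Topology

namespace Pool.Agent.F5H.H24

open Pool.Agent.BTL Pool.Agent.F5S Pool.Agent.F5H

theorem norm_le_of_nr {c : ℝ × ℝ} {ρ : ℝ} (hρ : 0 ≤ ρ) (h : nr c ≤ ρ ^ 2) : ‖c‖ ≤ ρ := by
  unfold nr at h
  rw [norm_prod_le_iff]
  constructor
  · rw [Real.norm_eq_abs]
    exact abs_le_of_sq_le_sq (by nlinarith [sq_nonneg c.2]) hρ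
  · rw [Real.norm_eq_abs]
    exact abs_le_of_sq_le_sq (by nlinarith [sq_nonneg c.1]) hρ

theorem norm_le_of_nle {c : R6} {ρ : ℝ} (hρ : 0 ≤ ρ) (h : nle ρ c) : ‖c‖ ≤ ρ := by
  obtain ⟨h1, h2, h3⟩ := h
  exact norm_prod_le_iff.2 ⟨norm_le_of_nr hρ h1,
    norm_prod_le_iff.2 ⟨norm_le_of_nr hρ h2, norm_le_of_nr hρ h3⟩⟩

/-- ONE -/
theorem one (ex1 : EX1Stmt) (spt : SPTStmt) (vae : VAEStmt) : ONEStmt := by
  intro M hM e he p
  obtain ⟨C, hC, hS⟩ := spt M hM e he p
  refine ⟨C, hC, ?_⟩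
  intro A hA T L R μ hT hL hLT hR hRT hμ W hW h01 hnle
  have hT0 : 0 < T := by linarith
  have hL0 : 0 < L := by linarith
  obtain ⟨hDint, hD⟩ := ex1 T L R e (2 * T) hL0 hR he (by linarith) p W hW h01
    (fun c hc => norm_le_of_nle (by linarith) (hnle c hc)) A
  obtain ⟨S, hSm, hSv, hS0⟩ := hS A hA T L R hT hL hLT hR hRT
  obtain ⟨hVint, _⟩ := vae T L R e hT0 hL0 (by linarith) hR he p W hW h01 hnle A _ _ rfl rfl
  obtain ⟨d, hd⟩ : ∃ d : R6 × ℝ → ℝ, d = fun z => nn T L R e p A z - mm L R e p A z := ⟨_, rfl⟩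
  have hDd : (fun z : R6 × ℝ => W z.1 * (nn T L R e p A z - mm L R e p A z)) =
      fun z => W z.1 * d z := by rw [hd]
  have hVd : (fun z : R6 × ℝ => W z.1 * (nn T L R e p A z - mm L R e p A z) ^ 2) =
      fun z => W z.1 * d z ^ 2 := by rw [hd]
  have hVA : VA T L R e p W A = ∫ z : R6 × ℝ, W z.1 * d z ^ 2 := by
    unfold VA
    rw [hVd]
  rw [hDd] at hDint hD
  rw [hVd] at hVint
  -- outside `S`
  have hout : ∀ z : R6 × ℝ, z ∉ S → W z.1 * d z = 0 := by
    intro z hz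
    by_cases hWz : W z.1 = 0
    · rw [hWz, zero_mul]
    · have h0 := hS0 z.1 z.2 (hnle z.1 hWz) hz
      have h1 : nn T L R e p A z = 0 := by
        unfold nn
        exact Finset.sum_eq_zero fun t _ => h0 (r3 t)
      have h2 : mm L R e p A z = 0 := by
        unfold mm
        have h3 : (fun x => cl6 L z.1 x * gg R e p A z.2 x) = fun _ : R6 => (0 : ℝ) :=
          funext h0
        rw [h3, integral_zero]
      rw [hd]
      show W z.1 * (nn T L R e p A z - mm L R e p A z) = 0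
      rw [h1, h2, sub_zero, mul_zero]
  -- the volume of `S`
  have hX : 0 ≤ C * (T ^ 5 * L ^ 3) := by positivity
  have hSfin : volume S ≠ ⊤ := ne_top_of_le_ne_top ENNReal.ofReal_ne_top hSv
  have hSreal : volume.real S ≤ C * (T ^ 5 * L ^ 3) := by
    unfold Measure.real
    exact ENNReal.toReal_le_of_le_ofReal hX hSv
  -- the pointwise bound
  have hind : Integrable (S.indicator (fun _ : R6 × ℝ => μ / 2)) :=
    (integrable_indicator_iff hSm).2 (integrableOn_const hSfin)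
  have hVint' : Integrable (fun z : R6 × ℝ => (2 * μ)⁻¹ * (W z.1 * d z ^ 2)) :=
    hVint.const_mul _
  have hpt : ∀ z : R6 × ℝ, |W z.1 * d z| ≤
      S.indicator (fun _ : R6 × ℝ => μ / 2) z + (2 * μ)⁻¹ * (W z.1 * d z ^ 2) := by
    intro z
    have hW0 := (h01 z.1).1
    have hW1 := (h01 z.1).2
    have hnn : 0 ≤ (2 * μ)⁻¹ * (W z.1 * d z ^ 2) := by positivity
    by_cases hz : z ∈ S
    · rw [Set.indicator_of_mem hz, abs_mul, abs_of_nonneg hW0]
      have h1 : |d z| ≤ μ / 2 + (2 * μ)⁻¹ * d z ^ 2 := by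
        have h2 : 0 ≤ (2 * μ)⁻¹ * (|d z| - μ) ^ 2 := by positivity
        have h3 : (2 * μ)⁻¹ * (|d z| - μ) ^ 2 = (2 * μ)⁻¹ * d z ^ 2 - |d z| + μ / 2 := by
          have h4 : |d z| ^ 2 = d z ^ 2 := sq_abs _
          have h5 : (|d z| - μ) ^ 2 = d z ^ 2 - 2 * μ * |d z| + μ ^ 2 := by
            rw [← h4]; ring
          rw [h5]
          field_simp
        linarith
      calc W z.1 * |d z| ≤ W z.1 * (μ / 2 + (2 * μ)⁻¹ * d z ^ 2) :=
            mul_le_mul_of_nonneg_left h1 hW0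
        _ = W z.1 * (μ / 2) + (2 * μ)⁻¹ * (W z.1 * d z ^ 2) := by ring
        _ ≤ μ / 2 + (2 * μ)⁻¹ * (W z.1 * d z ^ 2) := by
            have h6 : W z.1 * (μ / 2) ≤ 1 * (μ / 2) :=
              mul_le_mul_of_nonneg_right hW1 (by positivity)
            linarith
    · rw [Set.indicator_of_notMem hz, hout z hz, abs_zero, zero_add]
      exact hnn
  have hI : ∫ z : R6 × ℝ, |W z.1 * d z| ≤ μ * (C * (T ^ 5 * L ^ 3)) + VA T L R e p W A / μ := by
    have h1 : ∫ z : R6 × ℝ, |W z.1 * d z| ≤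
        ∫ z : R6 × ℝ, (S.indicator (fun _ : R6 × ℝ => μ / 2) z +
          (2 * μ)⁻¹ * (W z.1 * d z ^ 2)) :=
      integral_mono hDint.abs (hind.add hVint') hpt
    have h2 : ∫ z : R6 × ℝ, (S.indicator (fun _ : R6 × ℝ => μ / 2) z +
        (2 * μ)⁻¹ * (W z.1 * d z ^ 2)) = volume.real S * (μ / 2) +
          (2 * μ)⁻¹ * VA T L R e p W A := by
      rw [integral_add hind hVint', integral_const_mul, hVA, integral_indicator_const _ hSm,
        smul_eq_mul]
    have hVA0 : 0 ≤ VA T L R e p W A := by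
      rw [hVA]
      apply integral_nonneg
      intro z
      have hW0 := (h01 z.1).1
      show 0 ≤ W z.1 * d z ^ 2
      positivity
    have h3 : volume.real S * (μ / 2) ≤ μ * (C * (T ^ 5 * L ^ 3)) := by
      have h4 : volume.real S * (μ / 2) ≤ C * (T ^ 5 * L ^ 3) * (μ / 2) :=
        mul_le_mul_of_nonneg_right hSreal (by positivity)
      have h5 : 0 ≤ C * (T ^ 5 * L ^ 3) * μ := mul_nonneg hX hμ.le
      nlinarith
    have h4 : (2 * μ)⁻¹ * VA T L R e p W A ≤ VA T L R e p W A / μ := by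
      rw [div_eq_inv_mul]
      apply mul_le_mul_of_nonneg_right _ hVA0
      apply inv_anti₀ hμ
      linarith
    linarith
  rw [hD, abs_mul, abs_of_nonneg (by positivity : (0 : ℝ) ≤ (L ^ 6 * R)⁻¹)]
  apply mul_le_mul_of_nonneg_left _ (by positivity)
  exact (abs_integral_le_integral_abs).trans hI

end Pool.Agent.F5H.H24
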